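import Pool.Agent.Helper17.CT.Defs

set_option autoImplicit false

/-!
Splitting and gluing of Hamilton cycles along an embedded piece (modules CT-7 and CT-8).
-/

namespace Pool.Agent.Helper17.CT

section glue
variable {I : Type} {k : ℕ} {F : Inner I k} {D : Type} {M : CMap D} (E : Emb F M)

theorem ct7_s_of_range (d : E.HSet) (h : ∀ x, E.ι x ≠ d.1) : (E.outer.s d).1 = M.s d.1 := by
  simp only [Emb.outer, h, ne_eq, not_false_eq_true, implies_true, dite_true]

theorem ct7_out_s {d : D} (h : ∀ x, E.ι x ≠ d) : ∀ x, E.ι x ≠ M.s d :=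
  fun x hx => h (F.s (F.s x)) (by rw [E.hs, E.hs, hx, M.s3])

theorem ct7_out_ss {d : D} (h : ∀ x, E.ι x ≠ d) : ∀ x, E.ι x ≠ M.s (M.s d) :=
  fun x hx => h (F.s x) (by rw [E.hs, hx, M.s3])

theorem ct7_ss_of_range (d : E.HSet) (h : ∀ x, E.ι x ≠ d.1) :
    (E.outer.s (E.outer.s d)).1 = M.s (M.s d.1) := by
  have h1 := ct7_s_of_range E d h
  have h2 : ∀ x, E.ι x ≠ (E.outer.s d).1 := by
    rw [h1]; exact ct7_out_s E h
  rw [ct7_s_of_range E _ h2, h1]

theorem ct7_s_of_port (d : E.HSet) (x : I) (h : E.ι x = d.1) : E.outer.s d = d := by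
  have h1 : ¬ ∀ x, E.ι x ≠ d.1 := fun h' => h' x h
  simp only [Emb.outer]
  rw [dif_neg h1]

theorem ct7_port_of_mem (d : E.HSet) (x : I) (h : E.ι x = d.1) :
    ∃ j, x = F.q j ∧ d = E.outer.port j := by
  rcases d.2 with h1 | ⟨j, h1⟩
  · exact absurd h (h1 x)
  · refine ⟨j, E.inj (h.trans h1.symm), ?_⟩
    apply Subtype.ext
    exact h1.symm

theorem ct7_step_symm {D : Type} (M : CMap D) (U : D → Bool) {x y : D}
    (h : Step M.s M.a U x y) : Step M.s M.a U y x := by
  obtain ⟨h1, h2, h3⟩ := h
  refine ⟨h2, h1, ?_⟩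
  rcases h3 with h3 | h3 | h3
  · left; rw [h3, M.a2]
  · right; right; rw [h3, M.s3]
  · right; left; rw [h3, M.s3]

theorem ct7_conn_symm {D : Type} (M : CMap D) (U : D → Bool) {x y : D}
    (h : Conn M.s M.a U x y) : Conn M.s M.a U y x := by
  induction h with
  | refl => exact Relation.ReflTransGen.refl
  | tail _ h2 ih => exact Relation.ReflTransGen.head (ct7_step_symm M U h2) ih

/-- The set `O` is a factor of the outer pole. -/
theorem ct7_fac (U : D → Bool) (hU : M.IsHam U) : E.outer.Fac (fun d => U d.1) := by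
  refine ⟨fun d => hU.acl d.1, fun d hd => ?_⟩
  have h : ∀ x, E.ι x ≠ d.1 := by
    intro x hx
    exact hd (ct7_s_of_port E d x hx)
  change One (U d.1) (U (E.outer.s d).1) (U (E.outer.s (E.outer.s d)).1)
  rw [ct7_s_of_range E d h, ct7_ss_of_range E d h]
  exact hU.one d.1

theorem ct7_used [Nonempty I] (U : D → Bool) (hU : M.IsHam U) : ∃ x : I, U (E.ι x) = true := by
  obtain ⟨x⟩ := ‹Nonempty I›
  have h := hU.one (E.ι x)
  rcases h with ⟨_, h, _⟩ | ⟨h, _, _⟩ | ⟨h, _, _⟩
  · exact ⟨F.s x, by rw [E.hs]; exact h⟩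
  · exact ⟨x, h⟩
  · exact ⟨x, h⟩

/-- CT-7a -/
theorem sys_of_ham [Nonempty I] (U : D → Bool) (hU : M.IsHam U) :
    E.outer.Sys (fun d => U d.1) := by
  refine { toFac := ct7_fac E U hU, loopless := ?_ }
  intro x hx
  obtain ⟨x', hx'⟩ := ct7_used E U hU
  have hconn := hU.conn x.1 (E.ι x') hx hx'
  have key : ∀ z : D, Conn M.s M.a U z (E.ι x') → U z = true → ∀ hz : z ∈ E.HSet,
      ∃ j, U (E.outer.port j).1 = true ∧
        Conn E.outer.s E.outer.a (fun d => U d.1) ⟨z, hz⟩ (E.outer.port j) := by
    intro z hz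
    induction hz using Relation.ReflTransGen.head_induction_on with
    | refl =>
      intro hU1 hz
      obtain ⟨j, _, hj⟩ := ct7_port_of_mem E ⟨E.ι x', hz⟩ x' rfl
      refine ⟨j, ?_, ?_⟩
      · rw [← hj]; exact hU1
      · rw [← hj]; exact Relation.ReflTransGen.refl
    | @head z w hstep _ ih =>
      intro hU1 hz
      by_cases hr : ∃ y, E.ι y = z
      · obtain ⟨y, hy⟩ := hr
        obtain ⟨j, _, hj⟩ := ct7_port_of_mem E ⟨z, hz⟩ y hy
        refine ⟨j, ?_, ?_⟩
        · rw [← hj]; exact hU1
        · rw [← hj]; exact Relation.ReflTransGen.refl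
      · push Not at hr
        obtain ⟨_, hw, hcase⟩ := hstep
        have hwmem : w ∈ E.HSet := by
          rcases hcase with h | h | h
          · rw [h]; exact E.a_mem hz
          · rw [h]; exact Or.inl (ct7_out_s E hr)
          · rw [h]; exact Or.inl (ct7_out_ss E hr)
        obtain ⟨j, hj1, hj2⟩ := ih hw hwmem
        refine ⟨j, hj1, Relation.ReflTransGen.head ?_ hj2⟩
        refine ⟨hU1, hw, ?_⟩
        rcases hcase with h | h | h
        · left; exact Subtype.ext h
        · right; left
          apply Subtype.ext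
          rw [ct7_s_of_range E ⟨z, hz⟩ hr]; exact h
        · right; right
          apply Subtype.ext
          rw [ct7_ss_of_range E ⟨z, hz⟩ hr]; exact h
  exact key x.1 hconn hx x.2

/-- CT-7b -/
theorem hamF_of_ham [Nonempty I] (U : D → Bool) (hU : M.IsHam U) (b : Fin k → Fin k)
    (ε : Fin k → Bool) (hb : E.outer.Spec (fun d => U d.1) b ε) :
    HamF F (fun x => U (E.ι x)) b := by
  have huse : ∀ j, U (E.ι (F.q j)) = true ↔ b j ≠ j := fun j => hb.use j
  refine ⟨?_, ?_, huse, ?_⟩
  · intro x hx
    rw [E.he x hx]; exact hU.acl _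
  · intro x
    rw [E.hs, E.hs, E.hs]; exact hU.one _
  · intro x y hx hy
    have hjump : ∀ j, U (E.ι (F.q j)) = true →
        StepF F (fun x => U (E.ι x)) b (F.q j) (F.q (b j)) := by
      intro j hj
      refine ⟨hj, ?_, Or.inr (Or.inr (Or.inr ⟨j, rfl, rfl⟩))⟩
      rw [huse, hb.inv]
      exact fun h => (huse j).mp hj h.symm
    have hL : ∀ j l, U (E.outer.port j).1 = true →
        Relation.ReflTransGen (StepF F (fun x => U (E.ι x)) b) x (F.q j) →
        Conn E.outer.s E.outer.a (fun d => U d.1) (E.outer.port j) (E.outer.port l) →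
        Relation.ReflTransGen (StepF F (fun x => U (E.ι x)) b) x (F.q l) := by
      intro j l hj hreach hc
      rcases hb.uni j l hj hc with h | h
      · rw [h]; exact hreach
      · rw [h]; exact hreach.tail (hjump j hj)
    have key : ∀ z : D, Conn M.s M.a U (E.ι x) z →
        (∀ z', z = E.ι z' → Relation.ReflTransGen (StepF F (fun x => U (E.ι x)) b) x z') ∧
        (∀ hz : z ∈ E.HSet, ∃ j, U (E.outer.port j).1 = true ∧
          Relation.ReflTransGen (StepF F (fun x => U (E.ι x)) b) x (F.q j) ∧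
          Conn E.outer.s E.outer.a (fun d => U d.1) (E.outer.port j) ⟨z, hz⟩) := by
      intro z hz
      induction hz with
      | refl =>
        refine ⟨fun z' hz' => ?_, fun hz => ?_⟩
        · rw [E.inj hz']
        · obtain ⟨j, hj1, hj2⟩ := ct7_port_of_mem E ⟨E.ι x, hz⟩ x rfl
          refine ⟨j, ?_, ?_, ?_⟩
          · rw [← hj2]; exact hx
          · rw [← hj1]
          · rw [← hj2]; exact Relation.ReflTransGen.refl
      | @tail z w hzw hstep ih =>
        obtain ⟨hUz, hUw, hcase⟩ := hstep
        obtain ⟨ih1, ih2⟩ := ih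
        by_cases hr : (∃ z', z = E.ι z' ∧ ((∀ j, z' ≠ F.q j) ∨ w ≠ M.a z))
        · -- stay in the piece
          obtain ⟨z', hz', hz''⟩ := hr
          have hreach := ih1 z' hz'
          have hw : ∃ w', w = E.ι w' ∧ StepF F (fun x => U (E.ι x)) b z' w' := by
            rcases hcase with h | h | h
            · have hnp : ∀ j, z' ≠ F.q j := by
                rcases hz'' with h' | h'
                · exact h'
                · exact absurd h h'
              refine ⟨F.e z', ?_, ?_⟩
              · rw [E.he z' hnp, ← hz', h]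
              · refine ⟨by change U (E.ι z') = true; rw [← hz']; exact hUz, ?_, Or.inr (Or.inr (Or.inl ⟨hnp, rfl⟩))⟩
                change U (E.ι (F.e z')) = true
                rw [E.he z' hnp, ← hz', ← h]; exact hUw
            · refine ⟨F.s z', ?_, ?_⟩
              · rw [E.hs, ← hz', h]
              · refine ⟨by change U (E.ι z') = true; rw [← hz']; exact hUz, ?_, Or.inl rfl⟩
                change U (E.ι (F.s z')) = true
                rw [E.hs, ← hz', ← h]; exact hUw
            · refine ⟨F.s (F.s z'), ?_, ?_⟩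
              · rw [E.hs, E.hs, ← hz', h]
              · refine ⟨by change U (E.ι z') = true; rw [← hz']; exact hUz, ?_, Or.inr (Or.inl rfl)⟩
                change U (E.ι (F.s (F.s z'))) = true
                rw [E.hs, E.hs, ← hz', ← h]; exact hUw
          obtain ⟨w', hw1, hw2⟩ := hw
          have hreach' := hreach.tail hw2
          refine ⟨fun w'' hw'' => ?_, fun hwm => ?_⟩
          · have : w'' = w' := E.inj (hw''.symm.trans hw1)
            rw [this]; exact hreach'
          · obtain ⟨j, hj1, hj2⟩ := ct7_port_of_mem E ⟨w, hwm⟩ w' hw1.symm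
            refine ⟨j, ?_, ?_, ?_⟩
            · rw [← hj2]; exact hUw
            · rw [← hj1]; exact hreach'
            · rw [← hj2]; exact Relation.ReflTransGen.refl
        · -- a step of the outer pole
          have hzm : z ∈ E.HSet := by
            by_cases h : ∃ z', z = E.ι z'
            · obtain ⟨z', hz'⟩ := h
              have h2 : ¬ ((∀ j, z' ≠ F.q j) ∨ w ≠ M.a z) := fun h' => hr ⟨z', hz', h'⟩
              push Not at h2
              obtain ⟨⟨j, hj⟩, _⟩ := h2
              exact Or.inr ⟨j, by rw [← hj, hz']⟩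
            · push Not at h
              exact Or.inl (fun x hx => h x hx.symm)
          have hstep' : ∃ hwm : w ∈ E.HSet, Step E.outer.s E.outer.a (fun d => U d.1)
              ⟨z, hzm⟩ ⟨w, hwm⟩ := by
            by_cases h : ∃ z', z = E.ι z'
            · obtain ⟨z', hz'⟩ := h
              have h2 : ¬ ((∀ j, z' ≠ F.q j) ∨ w ≠ M.a z) := fun h' => hr ⟨z', hz', h'⟩
              push Not at h2
              refine ⟨by rw [h2.2]; exact E.a_mem hzm, hUz, hUw, Or.inl (Subtype.ext h2.2)⟩
            · push Not at h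
              have hout : ∀ x, E.ι x ≠ z := fun x hx => h x hx.symm
              rcases hcase with h' | h' | h'
              · exact ⟨by rw [h']; exact E.a_mem hzm, hUz, hUw, Or.inl (Subtype.ext h')⟩
              · refine ⟨by rw [h']; exact Or.inl (ct7_out_s E hout), hUz, hUw,
                  Or.inr (Or.inl (Subtype.ext ?_))⟩
                rw [ct7_s_of_range E ⟨z, hzm⟩ hout]; exact h'
              · refine ⟨by rw [h']; exact Or.inl (ct7_out_ss E hout), hUz, hUw,
                  Or.inr (Or.inr (Subtype.ext ?_))⟩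
                rw [ct7_ss_of_range E ⟨z, hzm⟩ hout]; exact h'
          obtain ⟨hwm, hst⟩ := hstep'
          obtain ⟨j, hj1, hj2, hj3⟩ := ih2 hzm
          have hj4 := hj3.tail hst
          refine ⟨fun w' hw' => ?_, fun _ => ⟨j, hj1, hj2, hj4⟩⟩
          obtain ⟨l, hl1, hl2⟩ := ct7_port_of_mem E ⟨w, hwm⟩ w' hw'.symm
          rw [hl1]
          rw [hl2] at hj4
          exact hL j l hj1 hj2 hj4
    exact (key (E.ι y) (hU.conn _ _ hx hy)).1 y rfl

/-- CT-8a -/
theorem glue_inner (t : I → Bool) (O : E.HSet → Bool) (x : I) : E.glue t O (E.ι x) = t x := by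
  have h : ∃ x', E.ι x' = E.ι x := ⟨x, rfl⟩
  unfold Emb.glue
  rw [dif_pos h]
  congr 1
  exact E.inj h.choose_spec

/-- CT-8b -/
theorem glue_outer (t : I → Bool) (O : E.HSet → Bool)
    (h : ∀ j, t (F.q j) = O (E.outer.port j)) (d : E.HSet) : E.glue t O d.1 = O d := by
  by_cases hr : ∃ x, E.ι x = d.1
  · obtain ⟨x, hx⟩ := hr
    obtain ⟨j, hj1, hj2⟩ := ct7_port_of_mem E d x hx
    rw [← hx, glue_inner, hj1, h, hj2]
  · unfold Emb.glue
    rw [dif_neg hr]

/-- CT-8c -/
theorem glue_ham (t : I → Bool) (O : E.HSet → Bool) (b : Fin k → Fin k) (ε : Fin k → Bool)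
    (hO : E.outer.Sys O) (hb : E.outer.Spec O b ε) (ht : HamF F t b) :
    M.IsHam (E.glue t O) := by
  have hport : ∀ j, t (F.q j) = O (E.outer.port j) := by
    intro j
    have h1 := ht.use j
    have h2 := hb.use j
    rw [Bool.eq_iff_iff, h1, h2]
  have hout := glue_outer E t O hport
  have hmap : ∀ u v : E.HSet, Conn E.outer.s E.outer.a O u v →
      Conn M.s M.a (E.glue t O) u.1 v.1 := by
    intro u v h
    induction h with
    | refl => exact Relation.ReflTransGen.refl
    | @tail v w _ hst ih =>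
      obtain ⟨h1, h2, h3⟩ := hst
      by_cases hr : ∃ x, E.ι x = v.1
      · obtain ⟨x, hx⟩ := hr
        have hs := ct7_s_of_port E v x hx
        rcases h3 with h3 | h3 | h3
        · refine ih.tail ⟨by rw [hout]; exact h1, by rw [hout]; exact h2, Or.inl ?_⟩
          rw [h3]; rfl
        · rw [hs] at h3; rw [h3]; exact ih
        · rw [hs, hs] at h3; rw [h3]; exact ih
      · push Not at hr
        refine ih.tail ⟨by rw [hout]; exact h1, by rw [hout]; exact h2, ?_⟩
        rcases h3 with h3 | h3 | h3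
        · left; rw [h3]; rfl
        · right; left; rw [h3]; exact ct7_s_of_range E v hr
        · right; right; rw [h3]; exact ct7_ss_of_range E v hr
  have hin : ∀ x y : I, Relation.ReflTransGen (StepF F t b) x y →
      Conn M.s M.a (E.glue t O) (E.ι x) (E.ι y) := by
    intro x y h
    induction h with
    | refl => exact Relation.ReflTransGen.refl
    | @tail y z _ hst ih =>
      obtain ⟨h1, h2, h3⟩ := hst
      rcases h3 with h3 | h3 | ⟨hnp, h3⟩ | ⟨j, hj1, hj2⟩
      · refine ih.tail ⟨by rw [glue_inner]; exact h1, by rw [glue_inner]; exact h2, ?_⟩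
        right; left; rw [h3, E.hs]
      · refine ih.tail ⟨by rw [glue_inner]; exact h1, by rw [glue_inner]; exact h2, ?_⟩
        right; right; rw [h3, E.hs, E.hs]
      · refine ih.tail ⟨by rw [glue_inner]; exact h1, by rw [glue_inner]; exact h2, ?_⟩
        left; rw [h3, E.he y hnp]
      · refine ih.trans ?_
        have hOj : O (E.outer.port j) = true := by rw [← hport, ← hj1]; exact h1
        have := hmap _ _ (hb.con j hOj)
        rw [hj1, hj2]
        exact this
  have hto : ∀ z, E.glue t O z = true → ∃ x, t x = true ∧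
      Conn M.s M.a (E.glue t O) z (E.ι x) := by
    intro z hz
    by_cases hm : z ∈ E.HSet
    · have h1 := hout ⟨z, hm⟩
      have h2 : O ⟨z, hm⟩ = true := by rw [← h1]; exact hz
      obtain ⟨j, hj1, hj2⟩ := hO.loopless ⟨z, hm⟩ h2
      exact ⟨F.q j, by rw [hport]; exact hj1, hmap _ _ hj2⟩
    · have h3 : ∃ x, E.ι x = z := by
        by_contra h
        push Not at h
        exact hm (Or.inl h)
      obtain ⟨x, rfl⟩ := h3
      exact ⟨x, by rw [← glue_inner E t O]; exact hz, Relation.ReflTransGen.refl⟩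
  refine ⟨?_, ?_, ?_⟩
  · intro d
    by_cases hm : d ∈ E.HSet
    · have h1 := hout ⟨d, hm⟩
      have h2 := hout ⟨M.a d, E.a_mem hm⟩
      have h3 := hO.acl ⟨d, hm⟩
      change E.glue t O d = _ at h1
      change E.glue t O (M.a d) = _ at h2
      rw [h1, h2]
      exact h3
    · have h3 : ∃ x, E.ι x = d := by
        by_contra h
        push Not at h
        exact hm (Or.inl h)
      obtain ⟨x, rfl⟩ := h3
      have hnp : ∀ j, x ≠ F.q j := by
        intro j hj
        exact hm (Or.inr ⟨j, by rw [hj]⟩)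
      rw [← E.he x hnp, glue_inner, glue_inner]
      exact ht.ecl x hnp
  · intro d
    by_cases hr : ∃ x, E.ι x = d
    · obtain ⟨x, rfl⟩ := hr
      rw [← E.hs, ← E.hs, glue_inner, glue_inner, glue_inner]
      exact ht.one x
    · push Not at hr
      have hm : d ∈ E.HSet := Or.inl hr
      have h1 := hout ⟨d, hm⟩
      have h2 := hout (E.outer.s ⟨d, hm⟩)
      have h3 := hout (E.outer.s (E.outer.s ⟨d, hm⟩))
      rw [ct7_s_of_range E ⟨d, hm⟩ hr] at h2
      rw [ct7_ss_of_range E ⟨d, hm⟩ hr] at h3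
      change E.glue t O d = _ at h1
      rw [h1, h2, h3]
      refine hO.one ⟨d, hm⟩ ?_
      intro h
      have := congrArg Subtype.val h
      rw [ct7_s_of_range E ⟨d, hm⟩ hr] at this
      exact M.s1 d this
  · intro x y hx hy
    obtain ⟨x', hx1, hx2⟩ := hto x hx
    obtain ⟨y', hy1, hy2⟩ := hto y hy
    exact (hx2.trans (hin x' y' (ht.conn x' y' hx1 hy1))).trans (ct7_conn_symm M _ hy2)

end glue

end Pool.Agent.Helper17.CT
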