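import Pool.Agent.Helper17.CT.Piece

/-!
# FS-8a, FS-8b: folding of bit vectors
-/

set_option autoImplicit false

namespace Pool.Agent.Helper17.CT

/-- FS-8b -/
theorem fold_lt (wd t x : ℕ) : fold wd t x < 2 ^ wd := by
  induction t generalizing x with
  | zero =>
    have h : fold wd 0 x = x % (1 <<< wd) := rfl
    rw [h, Nat.one_shiftLeft]
    exact Nat.mod_lt _ (by positivity)
  | succ t ih => exact ih _

theorem fold_aux (wd j : ℕ) (hj : j < wd) (t : ℕ) : ∀ x : ℕ, (fold wd t x).testBit j = true ↔
    (∑ i ∈ Finset.range (2 ^ t), if x.testBit (wd * i + j) = true then (1 : ZMod 2) else 0) = 1 := by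
  induction t with
  | zero =>
    intro x
    have h : fold wd 0 x = x % (1 <<< wd) := rfl
    rw [h, Nat.one_shiftLeft, Nat.testBit_mod_two_pow, pow_zero, Finset.range_one,
      Finset.sum_singleton, mul_zero, zero_add]
    rcases Bool.eq_false_or_eq_true (x.testBit j) with h5 | h5 <;> simp [hj, h5]
  | succ t ih =>
    intro x
    have h : fold wd (t + 1) x = fold wd t (x ^^^ (x >>> (wd * (1 <<< t)))) := rfl
    rw [h, ih, Nat.one_shiftLeft]
    have h2 : 2 ^ (t + 1) = 2 ^ t + 2 ^ t := by rw [pow_succ]; ring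
    rw [h2, Finset.sum_range_add, ← Finset.sum_add_distrib]
    have h3 : ∀ i, (if (x ^^^ (x >>> (wd * 2 ^ t))).testBit (wd * i + j) = true then (1 : ZMod 2)
        else 0) = (if x.testBit (wd * i + j) = true then (1 : ZMod 2) else 0) +
        (if x.testBit (wd * (2 ^ t + i) + j) = true then (1 : ZMod 2) else 0) := by
      intro i
      have h4 : wd * 2 ^ t + (wd * i + j) = wd * (2 ^ t + i) + j := by ring
      rw [Nat.testBit_xor, Nat.testBit_shiftRight, h4]
      rcases Bool.eq_false_or_eq_true (x.testBit (wd * i + j)) with h5 | h5 <;>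
      rcases Bool.eq_false_or_eq_true (x.testBit (wd * (2 ^ t + i) + j)) with h6 | h6 <;>
      simp only [h5, h6] <;> decide
    rw [Finset.sum_congr rfl (fun i _ => h3 i)]

/-- FS-8a -/
theorem fold_testBit (wd t x j : ℕ) (hj : j < wd) :
    (fold wd t x).testBit j = true ↔
      Odd (Nat.card {i : Fin (2 ^ t) // x.testBit (wd * i + j) = true}) := by
  rw [fold_aux wd j hj t x]
  have h1 : Nat.card {i : Fin (2 ^ t) // x.testBit (wd * i + j) = true} =
      ∑ i ∈ Finset.range (2 ^ t), if x.testBit (wd * i + j) = true then 1 else 0 := by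
    rw [Nat.card_eq_fintype_card, Fintype.card_subtype, Finset.card_filter,
      ← Fin.sum_univ_eq_sum_range (fun i => if x.testBit (wd * i + j) = true then 1 else 0)]
  rw [h1, ← ZMod.natCast_eq_one_iff_odd]
  push_cast
  rfl

end Pool.Agent.Helper17.CT
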